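import Mathlib
import Pool.Agent.Subspace.RFFinal

/-!
# Every digit block occurs at least `n ^ (1 - ε)` times in almost every power `p ^ n`
-/

namespace Pool.Agent.Results.MP_b08cb4_nt.AlmostAllBlocks

/-- The number of positions at which a block of `k` consecutive digits occurs in the base `q`
expansion of `m`: the number of `i` such that `i + k` is at most the number of base `q` digits of
`m` and the digits of `m` in the positions `i, …, i + k - 1` are those of `w` (where `w < q ^ k` is
written with `k` digits, leading zeros allowed), i.e. `⌊m / q ^ i⌋ mod q ^ k = w`. -/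
def blockCount (q k w m : ℕ) : ℕ :=
  ((Finset.range ((Nat.digits q m).length + 1)).filter
    (fun i => i + k ≤ (Nat.digits q m).length ∧ m / q ^ i % q ^ k = w)).card

open Classical in
/-- For coprime `p, q ≥ 2` (for example distinct primes), every block `w` of `k ≥ 1` base `q`
digits and all `ε, η > 0` there is `N₀` such that for every `A ≥ 1` and every `N ≥ N₀` all but at
most `η N` of the `n < N` are such that `w` occurs at least `N ^ (1 - ε)` times in the base `q`
expansion of `A p ^ n`. -/
theorem result {p q : ℕ} (hp : 2 ≤ p) (hq : 2 ≤ q) (hpq : Nat.Coprime p q)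
    {k w : ℕ} (hk : 1 ≤ k) (hw : w < q ^ k) {ε η : ℝ} (hε : 0 < ε) (hη : 0 < η) :
    ∃ N₀ : ℕ, ∀ A : ℕ, 1 ≤ A → ∀ N : ℕ, N₀ ≤ N →
      (((Finset.range N).filter
        (fun n => (blockCount q k w (A * p ^ n) : ℝ) < (N : ℝ) ^ (1 - ε))).card : ℝ) ≤ η * N :=
  SST.almost_all_blocks hp hq hpq hk hw hε hη

end Pool.Agent.Results.MP_b08cb4_nt.AlmostAllBlocks
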