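import Mathlib
import Pool.Agent.DL69.Main

/-!
# The base `q` digits of `A p ^ n` and of `B p ^ n` differ in many places
-/

namespace Pool.Agent.Results.MP_b08cb4_nt.DigitDistance

/-- The number of positions `i` in which the base `q` digits `⌊x / q ^ i⌋ mod q` and
`⌊y / q ^ i⌋ mod q` of `x` and `y` are different (beyond the leading digit all digits are `0`). -/
noncomputable def digitDistance (q x y : ℕ) : ℕ :=
  {i : ℕ | x / q ^ i % q ≠ y / q ^ i % q}.ncard

/-- The number of digit changes with lag `k` in the base `q` expansion of `m`: the number of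
positions `i` such that `i` and `i + k` are both positions of digits of `m` and the digits
`⌊m / q ^ i⌋ mod q` and `⌊m / q ^ (i + k)⌋ mod q` of `m` in these positions are different. -/
def lagChanges (q k m : ℕ) : ℕ :=
  ((Finset.range (Nat.digits q m).length).filter
    (fun i => i + k < (Nat.digits q m).length ∧ m / q ^ i % q ≠ m / q ^ (i + k) % q)).card

/-- A consequence (`B = q ^ k A`): the harmonic bound for the digit changes with lag `k` of
`A p ^ n`, uniformly in `A` and `k`. The case `k = 1` concerns the ordinary digit changes. -/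
theorem lag {p q : ℕ} (hp : 2 ≤ p) (hq : 2 ≤ q) (hpq : Nat.Coprime p q) {ε : ℝ} (hε : 0 < ε) :
    ∃ C : ℝ, 0 < C ∧ ∀ A k N : ℕ, 1 ≤ A → 1 ≤ k →
      ∑ n ∈ Finset.range N, 1 / ((k : ℝ) + (lagChanges q k (A * p ^ n) : ℝ))
        ≤ C * (N : ℝ) ^ ε := by
  obtain ⟨C, hC, h⟩ := Pool.Agent.DL69.main hp hq hpq hε
  exact ⟨C, hC, fun A k N hA hk => (h N).2 A k hA hk⟩

/-- For coprime `p, q ≥ 2` (for example distinct primes) and every `ε > 0` there is `C` such that
for all natural numbers `A ≠ B` and every `N` the sum over `n < N` of `1 / D(n)` is at most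
`C N ^ ε`, where `D(n) ≥ 1` is the number of positions in which the base `q` digits of `A p ^ n` and
`B p ^ n` differ. -/
theorem result {p q : ℕ} (hp : 2 ≤ p) (hq : 2 ≤ q) (hpq : Nat.Coprime p q) {ε : ℝ} (hε : 0 < ε) :
    ∃ C : ℝ, 0 < C ∧ ∀ A B : ℕ, A ≠ B → ∀ N : ℕ,
      ∑ n ∈ Finset.range N, 1 / (digitDistance q (A * p ^ n) (B * p ^ n) : ℝ)
        ≤ C * (N : ℝ) ^ ε :=
  Pool.Agent.DL69.distance_eps hp hq hpq hε

end Pool.Agent.Results.MP_b08cb4_nt.DigitDistance
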