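import Mathlib
import Pool.Agent.DP4.FF

/-!
# Powers of `p` with all base-`q` digits in a prescribed set

For an odd prime `q`, an integer `p ≥ 2` not divisible by `q` and a set `D` of base-`q` digits
with `|D|² ≥ q`, the number of `n < N` such that every base-`q` digit of `p ^ n` lies in `D` is
`O(N ^ γ)` where, with `α = log_q |D|`, `γ = 1/(3 - 2α)` if `q = 3` and
`γ = 1 - 2α(1 - α)/m` if `q > 3`; here `m` is the least of `α + 1/2`, `log_q L` for any bound `L`
of the `ℓ¹` norm of the exponential sum over `D`, and `log_q (q (q - |D| + (5 + 2 log q)/π))`.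

Taking `D = {0, …, q-1} \ {b}` this bounds the number of `n < N` with `d_n(b) = 0`; for `q = 3`
the exponent is `1/(3 - 2 log_3 2) = 0.5753…`, below the exponent `log_3 2 = 0.6309…`.
-/

set_option autoImplicit false

namespace Pool.Agent.Results.MP_b08cb4_nt.MissingDigitsExponent

theorem result (p q : ℕ) (hp : 2 ≤ p) (hq : q.Prime) (hq3 : 3 ≤ q) (hpq : ¬ q ∣ p)
    (D : Finset ℕ) (hD : D ⊆ Finset.range q) (hcard : q ≤ D.card ^ 2) (L : ℝ)
    (hL : ∀ θ : ℝ, ∑ t ∈ Finset.range q, ‖∑ a ∈ D, Complex.exp (2 * Real.pi * Complex.I *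
      ((a : ℂ) * ((θ : ℂ) + (t : ℂ)) / (q : ℂ)))‖ ≤ L) :
    ∃ C : ℝ, ∀ N : ℕ,
      (((Finset.range N).filter (fun n => (Nat.digits q (p ^ n)).toFinset ⊆ D)).card : ℝ) ≤
        C * (N : ℝ) ^ (if q = 3 then 1 / (3 - 2 * Real.logb q D.card) else
          1 - 2 * Real.logb q D.card * (1 - Real.logb q D.card) /
            min (min (Real.logb q D.card + 1 / 2) (Real.logb q L))
              (Real.logb q (q * (((q : ℝ) - D.card) + (5 + 2 * Real.log q) / Real.pi)))) := by
  have hDq : D.card ≤ q := by
    have := Finset.card_le_card hD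
    rwa [Finset.card_range] at this
  by_cases hq' : q = 3
  · rw [if_pos hq']
    subst hq'
    have h2 : 2 ≤ D.card := by
      by_contra hcon
      have h1 : D.card ^ 2 ≤ 1 ^ 2 := Nat.pow_le_pow_left (by omega) 2
      omega
    rcases (show D.card = 2 ∨ D.card = 3 by omega) with h | h
    · obtain ⟨C, hC⟩ := Pool.Agent.DP3.missing_digit_three p hp hpq D hD h
      refine ⟨C, fun N => ?_⟩
      have h3 := hC N
      rw [h]
      exact_mod_cast h3
    · refine ⟨1, fun N => ?_⟩
      have h3 : Real.logb ((3 : ℕ) : ℝ) (D.card : ℝ) = 1 := by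
        rw [h]
        exact Real.logb_self_eq_one (by norm_num)
      rw [h3, show (1 : ℝ) / (3 - 2 * 1) = 1 by norm_num, Real.rpow_one, one_mul]
      have h4 := Finset.card_filter_le (Finset.range N)
        (fun n => (Nat.digits 3 (p ^ n)).toFinset ⊆ D)
      rw [Finset.card_range] at h4
      exact_mod_cast h4
  · rw [if_neg hq']
    exact Pool.Agent.DP4.missing_count_min p q hp hq hq3 hpq D hD hcard L _ hL
      (fun θ => Pool.Agent.DP4.l1_le q (by omega) D hD θ)

end Pool.Agent.Results.MP_b08cb4_nt.MissingDigitsExponent
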