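import Mathlib
import Pool.Agent.WB65.Main

/-!
# In most windows of consecutive powers one single power contains every digit block many times
-/

namespace Pool.Agent.Results.MP_b08cb4_nt.WindowBlocks

/-- The number of positions at which a block of `k` consecutive digits occurs in the base `q`
expansion of `m`: the number of `i` such that `i + k` is at most the number of base `q` digits of
`m` and the digits of `m` in the positions `i, …, i + k - 1` are those of `w` (where `w < q ^ k` is
written with `k` digits, leading zeros allowed), i.e. `⌊m / q ^ i⌋ mod q ^ k = w`. -/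
def blockCount (q k w m : ℕ) : ℕ :=
  ((Finset.range ((Nat.digits q m).length + 1)).filter
    (fun i => i + k ≤ (Nat.digits q m).length ∧ m / q ^ i % q ^ k = w)).card

/-- For coprime `p, q ≥ 2` (for example distinct primes) and every `k ≥ 1` there is `K` such that
for every `ε > 0` there is `C` such that for all `A ≥ 1` there are natural numbers `L n` with the
following two properties: for every `n` one of the powers `A p ^ n, …, A p ^ (n + K)` contains
every block `w` of `k` base `q` digits at least `L n` times; and for all `N` the sum over `n < N`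
of `1 / (1 + L n)` is at most `C N ^ ε`. -/
theorem result {p q : ℕ} (hp : 2 ≤ p) (hq : 2 ≤ q) (hpq : Nat.Coprime p q)
    {k : ℕ} (hk : 1 ≤ k) :
    ∃ K : ℕ, ∀ ε : ℝ, 0 < ε → ∃ C : ℝ, 0 < C ∧ ∀ A : ℕ, 1 ≤ A → ∃ L : ℕ → ℕ,
      (∀ n : ℕ, ∃ i ≤ K, ∀ w < q ^ k, L n ≤ blockCount q k w (A * p ^ (n + i))) ∧
      ∀ N : ℕ, ∑ n ∈ Finset.range N, 1 / (1 + (L n : ℝ)) ≤ C * (N : ℝ) ^ ε :=
  Pool.Agent.WB65.all_blocks hp hq hpq hk

end Pool.Agent.Results.MP_b08cb4_nt.WindowBlocks
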